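import Pool.Agent.H18.CGR.Stmts

/-!
Row LAM (MP_286349_an): the values of the dual family at `x`.
-/

set_option autoImplicit false

noncomputable section

namespace Pool.CGR

namespace LAMaux

theorem norm_ev_le {m : ℕ} {A : Type} [CStarAlgebra A] (h1 : ‖(1 : A)‖ ≤ 1) (x : Fin m → A)
    (hx : ∀ i, ‖x i‖ ≤ 9 / 4) (w : List (Fin m)) : ‖ev x w‖ ≤ (9 / 4) ^ w.length := by
  induction w with
  | nil => simpa [ev] using h1
  | cons a w ih =>
    have : ev x (a :: w) = x a * ev x w := by simp [ev]
    rw [this, List.length_cons, pow_succ']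
    exact (norm_mul_le _ _).trans (mul_le_mul (hx a) ih (norm_nonneg _) (by norm_num))

theorem ev_append_one {m : ℕ} {A : Type} [CStarAlgebra A] (x : Fin m → A) (w : List (Fin m))
    (i : Fin m) : ev x (w ++ [i]) = ev x w * x i := by
  simp [ev]

theorem norm_one_le {A : Type} [CStarAlgebra A] {τ : A →ₗ[ℂ] ℂ} (hτ : IsTrace τ) :
    ‖(1 : A)‖ ≤ 1 := by
  have : Nontrivial A := by
    refine ⟨⟨1, 0, fun h => ?_⟩⟩
    have h2 := hτ.one
    rw [h, map_zero] at h2
    exact zero_ne_one h2
  exact le_of_eq CStarRing.norm_one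

theorem hd_congr {E : Type*} [Zero E] {α : Type} [DecidableEq α] (i : α) (u : List α)
    (F G : List α → E) (h : ∀ v, F v = G v) : hd i u F = hd i u G := by
  have : F = G := funext h
  rw [this]

end LAMaux

open LAMaux

theorem lam_thm (hRUN : RUNStmt) (hNBD : NBDStmt) (hTCO : TCOStmt) : LAMStmt := by
  intro m k hk A _ τ hτ x hx hlaw G hG
  have h1 : ‖(1 : A)‖ ≤ 1 := norm_one_le hτ
  have hev : ∀ w : List (Fin m), ‖ev x w‖ ≤ (9 / 4) ^ w.length := norm_ev_le h1 x hx
  obtain ⟨B, hB⟩ := hG.bdd
  have hB0 : 0 ≤ B := by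
    have := hB []
    simp only [List.length_nil, pow_zero, mul_one] at this
    exact (norm_nonneg _).trans this
  have hn : ∀ u w : List (Fin m), ‖nn (kx k) w u‖ ≤ 4 ^ u.length * (5 / 2) ^ w.length := by
    refine hNBD m (kx k) fun w => ?_
    rw [← hlaw w]
    exact (hτ.norm _).trans (hev w)
  set d : List (Fin m) → List (Fin m) → ℂ := fun u w => τ (ev x w * G u) - nn (kx k) w u with hd'
  have hdb : ∀ u w, ‖d u w‖ * (2 / 5) ^ w.length ≤ (B + 1) * 4 ^ u.length := by
    intro u w
    have e1 : ‖τ (ev x w * G u)‖ ≤ (5 / 2) ^ w.length * (B * 4 ^ u.length) := by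
      refine (hτ.norm _).trans ((norm_mul_le _ _).trans ?_)
      refine mul_le_mul ((hev w).trans ?_) (hB u) (norm_nonneg _) (by positivity)
      exact pow_le_pow_left₀ (by norm_num) (by norm_num) _
    have e2 : ‖d u w‖ ≤ (5 / 2) ^ w.length * ((B + 1) * 4 ^ u.length) := by
      refine (norm_sub_le _ _).trans ?_
      have := hn u w
      nlinarith
    have e3 : ((5 / 2 : ℝ)) ^ w.length * (2 / 5) ^ w.length = 1 := by
      rw [← mul_pow]
      norm_num
    calc ‖d u w‖ * (2 / 5) ^ w.length
        ≤ (5 / 2) ^ w.length * ((B + 1) * 4 ^ u.length) * (2 / 5) ^ w.length :=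
          mul_le_mul_of_nonneg_right e2 (by positivity)
      _ = ((5 / 2) ^ w.length * (2 / 5) ^ w.length) * ((B + 1) * 4 ^ u.length) := by ring
      _ = (B + 1) * 4 ^ u.length := by rw [e3, one_mul]
  set D : List (Fin m) → ℝ := fun u => ⨆ w : List (Fin m), ‖d u w‖ * (2 / 5) ^ w.length with hD'
  have hbdd : ∀ u, BddAbove (Set.range fun w : List (Fin m) => ‖d u w‖ * (2 / 5 : ℝ) ^ w.length) := by
    intro u
    refine ⟨(B + 1) * 4 ^ u.length, ?_⟩
    rintro _ ⟨w, rfl⟩
    exact hdb u w
  have hle : ∀ u w, ‖d u w‖ * (2 / 5) ^ w.length ≤ D u := fun u w => le_ciSup (hbdd u) w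
  have hD0 : ∀ u, 0 ≤ D u := fun u => le_trans (by positivity) (hle u [])
  have hDB : ∀ u, D u ≤ (B + 1) * 4 ^ u.length := fun u => ciSup_le fun w => hdb u w
  have hDnil : D [] = 0 := by
    have : ∀ w : List (Fin m), ‖d [] w‖ * (2 / 5 : ℝ) ^ w.length = 0 := by
      intro w
      have : d [] w = 0 := by
        simp only [hd', hG.nil, mul_one, hlaw w, sub_self]
      rw [this]
      simp
    simp only [hD', this]
    exact ciSup_const
  -- summability
  have hsum : ∀ i : Fin m, Summable (fun v : List (Fin m) => ‖k i v‖ * 4 ^ v.length) :=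
    fun i => (hk i).1
  have hS1 : ∀ (i : Fin m) (u : List (Fin m)), Summable (fun v : List (Fin m) => k i v • G (v ++ u)) := by
    intro i u
    refine Summable.of_norm_bounded ((hsum i).mul_right (B * 4 ^ u.length)) fun v => ?_
    rw [norm_smul]
    have := hB (v ++ u)
    rw [List.length_append, pow_add] at this
    calc ‖k i v‖ * ‖G (v ++ u)‖ ≤ ‖k i v‖ * (B * (4 ^ v.length * 4 ^ u.length)) :=
          mul_le_mul_of_nonneg_left this (norm_nonneg _)
      _ = ‖k i v‖ * 4 ^ v.length * (B * 4 ^ u.length) := by ring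
  have hS2 : ∀ (i : Fin m) (u w : List (Fin m)),
      Summable (fun v : List (Fin m) => k i v * nn (kx k) w (v ++ u)) := by
    intro i u w
    refine Summable.of_norm_bounded
      ((hsum i).mul_right (4 ^ u.length * (5 / 2) ^ w.length)) fun v => ?_
    rw [norm_mul]
    have := hn (v ++ u) w
    rw [List.length_append, pow_add] at this
    calc ‖k i v‖ * ‖nn (kx k) w (v ++ u)‖
        ≤ ‖k i v‖ * (4 ^ v.length * 4 ^ u.length * (5 / 2) ^ w.length) :=
          mul_le_mul_of_nonneg_left this (norm_nonneg _)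
      _ = ‖k i v‖ * 4 ^ v.length * (4 ^ u.length * (5 / 2) ^ w.length) := by ring
  have hS3 : ∀ (i : Fin m) (u : List (Fin m)),
      Summable (fun v : List (Fin m) => ‖k i v‖ * D (v ++ u)) := by
    intro i u
    refine Summable.of_nonneg_of_le (fun v => mul_nonneg (norm_nonneg _) (hD0 _)) (fun v => ?_)
      ((hsum i).mul_right ((B + 1) * 4 ^ u.length))
    have := hDB (v ++ u)
    rw [List.length_append, pow_add] at this
    calc ‖k i v‖ * D (v ++ u) ≤ ‖k i v‖ * ((B + 1) * (4 ^ v.length * 4 ^ u.length)) :=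
          mul_le_mul_of_nonneg_left this (norm_nonneg _)
      _ = ‖k i v‖ * 4 ^ v.length * ((B + 1) * 4 ^ u.length) := by ring
  -- the recursion
  have hrec : ∀ (i : Fin m) (u w : List (Fin m)), d u (w ++ [i]) =
      d (i :: u) w + hd i u (fun v => d v w) + ∑' v : List (Fin m), k i v * d (v ++ u) w := by
    intro i u w
    have hL : ∃ L : A →L[ℂ] ℂ, ∀ a, L a = τ (ev x w * a) := by
      refine ⟨LinearMap.mkContinuous (τ ∘ₗ LinearMap.mulLeft ℂ (ev x w)) ‖ev x w‖ fun a => ?_,
        fun a => rfl⟩
      exact (hτ.norm _).trans (norm_mul_le _ _)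
    obtain ⟨L, hL⟩ := hL
    have e1 : τ (ev x (w ++ [i]) * G u) = L (x i * G u) := by
      rw [hL, ev_append_one, mul_assoc]
    have e2 : L (x i * G u) = L (G (i :: u)) + L (hd i u G) +
        ∑' v : List (Fin m), k i v * L (G (v ++ u)) := by
      have h2 := hG.step i u
      rw [h2, map_add, map_add, L.map_tsum (hS1 i u)]
      congr 1
      refine tsum_congr fun v => ?_
      rw [map_smul, smul_eq_mul]
    have e3 : nn (kx k) (w ++ [i]) u = hd i u (nn (kx k) w) +
        (∑' v : List (Fin m), k i v * nn (kx k) w (v ++ u) + nn (kx k) w (i :: u)) := by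
      rw [nn_append, hTCO (Fin m) (kx k) i (nn (kx k) w) u]
      congr 1
      have h3 : ∀ v : List (Fin m), kx k i v * nn (kx k) w (v ++ u) =
          k i v * nn (kx k) w (v ++ u) +
            (if v = [i] then nn (kx k) w (i :: u) else 0) := by
        intro v
        simp only [kx]
        by_cases hv : v = [i]
        · subst hv
          simp [add_mul]
        · simp [hv]
      have hs : HasSum (fun v : List (Fin m) =>
          (if v = [i] then nn (kx k) w (i :: u) else 0)) (nn (kx k) w (i :: u)) := by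
        have := hasSum_ite_eq ([i] : List (Fin m)) (nn (kx k) w (i :: u))
        exact this
      rw [tsum_congr h3, (hS2 i u w).tsum_add hs.summable, hs.tsum_eq]
    have e4 : hd i u (fun v => d v w) = L (hd i u G) - hd i u (nn (kx k) w) := by
      cases u with
      | nil => simp [hd]
      | cons a u' =>
        simp only [hd]
        by_cases ha : a = i
        · simp [ha, hd', hL]
        · simp [ha]
    have hS4 : Summable (fun v : List (Fin m) => k i v * L (G (v ++ u))) := by
      have := (hS1 i u).map L L.continuous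
      refine this.congr fun v => ?_
      simp [Function.comp]
    have e5 : ∑' v : List (Fin m), k i v * d (v ++ u) w =
        ∑' v : List (Fin m), k i v * L (G (v ++ u)) -
          ∑' v : List (Fin m), k i v * nn (kx k) w (v ++ u) := by
      rw [← hS4.tsum_sub (hS2 i u w)]
      refine tsum_congr fun v => ?_
      simp only [hd', hL]
      ring
    have e6 : d (i :: u) w = L (G (i :: u)) - nn (kx k) w (i :: u) := by
      simp only [hd', hL]
    have e7 : d u (w ++ [i]) = τ (ev x (w ++ [i]) * G u) - nn (kx k) (w ++ [i]) u := rfl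
    rw [e7, e1, e2, e3, e4, e5, e6]
    ring
  have hstep : ∀ (i : Fin m) (u : List (Fin m)),
      D (i :: u) ≤ 5 / 2 * D u + hd i u D + ∑' v : List (Fin m), ‖k i v‖ * D (v ++ u) := by
    intro i u
    refine ciSup_le fun w => ?_
    have hp : (0 : ℝ) ≤ (2 / 5) ^ w.length := by positivity
    have f0 : d (i :: u) w = d u (w ++ [i]) - hd i u (fun v => d v w) -
        ∑' v : List (Fin m), k i v * d (v ++ u) w := by
      rw [hrec i u w]
      ring
    have f1 : ‖d u (w ++ [i])‖ * (2 / 5) ^ w.length ≤ 5 / 2 * D u := by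
      have := hle u (w ++ [i])
      rw [List.length_append, List.length_singleton, pow_succ] at this
      nlinarith
    have f2 : ‖hd i u (fun v => d v w)‖ * (2 / 5) ^ w.length ≤ hd i u D := by
      cases u with
      | nil => simp [hd]
      | cons a u' =>
        simp only [hd]
        by_cases ha : a = i
        · simp only [ha, if_true]
          exact hle u' w
        · simp [ha]
    have hS5 : Summable (fun v : List (Fin m) => ‖k i v * d (v ++ u) w‖ * (2 / 5) ^ w.length) := by
      refine Summable.of_nonneg_of_le (fun v => by positivity) (fun v => ?_) (hS3 i u)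
      rw [norm_mul, mul_assoc]
      exact mul_le_mul_of_nonneg_left (hle _ w) (norm_nonneg _)
    have f3 : ‖∑' v : List (Fin m), k i v * d (v ++ u) w‖ * (2 / 5) ^ w.length ≤
        ∑' v : List (Fin m), ‖k i v‖ * D (v ++ u) := by
      have hS6 : Summable (fun v : List (Fin m) => ‖k i v * d (v ++ u) w‖) := by
        have hp' : ((2 / 5 : ℝ)) ^ w.length ≠ 0 := by positivity
        have := hS5.mul_right (((2 / 5 : ℝ) ^ w.length)⁻¹)
        refine this.congr fun v => ?_
        field_simp
      calc ‖∑' v : List (Fin m), k i v * d (v ++ u) w‖ * (2 / 5) ^ w.length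
          ≤ (∑' v : List (Fin m), ‖k i v * d (v ++ u) w‖) * (2 / 5) ^ w.length :=
            mul_le_mul_of_nonneg_right (norm_tsum_le_tsum_norm hS6) hp
        _ = ∑' v : List (Fin m), ‖k i v * d (v ++ u) w‖ * (2 / 5) ^ w.length :=
            (tsum_mul_right).symm
        _ ≤ ∑' v : List (Fin m), ‖k i v‖ * D (v ++ u) := by
            refine hS5.tsum_le_tsum (fun v => ?_) (hS3 i u)
            rw [norm_mul, mul_assoc]
            exact mul_le_mul_of_nonneg_left (hle _ w) (norm_nonneg _)
    have f4 : ‖d (i :: u) w‖ ≤ ‖d u (w ++ [i])‖ + ‖hd i u (fun v => d v w)‖ +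
        ‖∑' v : List (Fin m), k i v * d (v ++ u) w‖ := by
      rw [f0]
      exact (norm_sub_le _ _).trans (add_le_add_left (norm_sub_le _ _) _)
    calc ‖d (i :: u) w‖ * (2 / 5) ^ w.length
        ≤ (‖d u (w ++ [i])‖ + ‖hd i u (fun v => d v w)‖ +
          ‖∑' v : List (Fin m), k i v * d (v ++ u) w‖) * (2 / 5) ^ w.length :=
          mul_le_mul_of_nonneg_right f4 hp
      _ ≤ 5 / 2 * D u + hd i u D + ∑' v : List (Fin m), ‖k i v‖ * D (v ++ u) := by
          rw [add_mul, add_mul]
          exact add_le_add (add_le_add f1 f2) f3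
  have hzero := hRUN m k hk D (B + 1) hD0 hDB hDnil hstep
  intro u w
  have h5 := hle u w
  rw [hzero u] at h5
  have hp : (0 : ℝ) < (2 / 5) ^ w.length := by positivity
  have h6 : ‖d u w‖ = 0 := by
    have h7 := norm_nonneg (d u w)
    nlinarith
  have h8 : d u w = 0 := norm_eq_zero.1 h6
  exact sub_eq_zero.1 h8

end Pool.CGR
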